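import Mathlib
import Pool.Agent.helper56.SGE.Pos

/-!
# Module R4: the inner faces of the second triangulation are positive at the exact positions
-/

set_option autoImplicit false

namespace Pool.Agent.helper70.SGE

open Pool.Agent.helper56.SGE Vx

/-- determinant of three vertices different from `H`, `V` -/
theorem det_eq (S : Slp) (D : Sk) (a b c : Vx) (ha : a ≠ H ∧ a ≠ V) (hb : b ≠ H ∧ b ≠ V)
    (hc : c ≠ H ∧ c ≠ V) :
    det3 (hom oF (D.col S) (D.row S) a) (hom oF (D.col S) (D.row S) b)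
      (hom oF (D.col S) (D.row S) c) =
    (D.col S b - D.col S a) * (D.row S c - D.row S a) -
      (D.row S b - D.row S a) * (D.col S c - D.col S a) := by
  have key : ∀ v : Vx, v ≠ H ∧ v ≠ V →
      hom oF (D.col S) (D.row S) v = (1, D.col S v, D.row S v) := by
    intro v hv
    by_cases h0 : v = O
    · subst h0
      simp [hom, oF, Sk.col, Sk.row]
    · simp [hom, oF, h0, hv.1, hv.2]
  rw [key a ha, key b hb, key c hc]
  simp only [det3]
  ring

section

variable {S : Slp} (h : S.WF) {D : Sk} (hD : Sk.Ok S D)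

include hD

theorem mm_x2 : 1 < D.mm ∧ D.mm < D.x2 ∧ D.x2 < D.tt := by
  have h1 := hD.c1
  have h2 := hD.c2
  have h4 := hD.c4
  refine ⟨h1, h2, ?_⟩
  nlinarith

theorem top_step (j : ℕ) (hj : j + 1 ≤ S.N) : D.top j + 1 < D.top (j + 1) := by
  have a1 := hD.h1_pos (j + 1) (by omega) hj
  have a2 := hD.h2_pos (j + 1) (by omega) hj
  have a3 := hD.h3_pos (j + 1) (by omega) hj
  simp only [Sk.top]
  linarith

theorem top_mono {i j : ℕ} (hij : i ≤ j) (hj : j ≤ S.N) : D.top i ≤ D.top j := by
  induction j, hij using Nat.le_induction with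
  | base => exact le_rfl
  | succ k hk ih => exact (ih (by omega)).trans (by have := top_step hD k hj; linarith)

theorem top_ge {j : ℕ} (hj : j ≤ S.N) : D.tt ≤ D.top j := top_mono hD (Nat.zero_le j) hj

theorem right_ge {j : ℕ} (hj : j ≤ S.N) : D.x2 ≤ D.right j := by
  induction j with
  | zero => exact le_rfl
  | succ k ih =>
    have a1 := hD.uK_pos (k + 1) (by omega) hj
    have a2 := hD.uL_pos (k + 1) (by omega) hj
    have := ih (by omega)
    simp only [Sk.right]
    linarith

/-- the rows of a port read by block `j` -/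
theorem port {i j : ℕ} (k : Bool) (hij : i < j) (hj : j ≤ S.N) :
    1 ≤ D.rB i k ∧ D.rB i k < D.rM i k ∧ D.rM i k < D.rT i k ∧ D.rT i k ≤ D.top (j - 1) ∧
      D.rat i k * (D.rM i k - D.rB i k) = D.rT i k - D.rM i k := by
  obtain ⟨c1, c2, c3⟩ := mm_x2 hD
  have hm := top_mono hD (i := i) (j := j - 1) (by omega) (by omega)
  rcases Nat.eq_zero_or_pos i with rfl | hi
  · have h0 : D.top 0 = D.tt := rfl
    rw [h0] at hm
    simp only [Sk.rB, Sk.rM, Sk.rT, Sk.rat, if_true]
    refine ⟨le_rfl, c1, by linarith, hm, ?_⟩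
    have : D.mm - 1 ≠ 0 := by linarith
    field_simp
  · have hne : i ≠ 0 := by omega
    have a1 := hD.h1_pos i hi (by omega)
    have a2 := hD.h2_pos i hi (by omega)
    have a3 := hD.h3_pos i hi (by omega)
    have ht := top_ge hD (j := i - 1) (by omega)
    obtain ⟨i', rfl⟩ : ∃ i', i = i' + 1 := ⟨i - 1, by omega⟩
    simp only [Nat.add_sub_cancel] at ht
    have htop : D.top (i' + 1) = D.top i' + 1 + D.h3 (i' + 1) + D.h2 (i' + 1) + D.h1 (i' + 1) := rfl
    rw [htop] at hm
    cases k
    · simp only [Sk.rB, Sk.rM, Sk.rT, Sk.rat, if_neg hne, Sk.Y1, Sk.Y2, Sk.Y3, Sk.Y4,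
        Nat.add_sub_cancel, Bool.false_eq_true, if_false]
      refine ⟨by linarith, by linarith, by linarith, by linarith, ?_⟩
      field_simp
      ring
    · simp only [Sk.rB, Sk.rM, Sk.rT, Sk.rat, if_neg hne, Sk.Y1, Sk.Y2, Sk.Y3, Sk.Y4,
        Nat.add_sub_cancel, if_true]
      refine ⟨by linarith, by linarith, by linarith, by linarith, ?_⟩
      field_simp
      ring

end

section

variable (S : Slp) (D : Sk)

theorem src_even (j : ℕ) : S.src (2 * j) = S.A j ∧ S.kind (2 * j) = S.kA j := by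
  have h1 : (2 * j) % 2 = 0 := by omega
  have h2 : (2 * j) / 2 = j := by omega
  simp only [Slp.src, Slp.kind, h1, h2, if_true, and_self]

theorem src_odd (j : ℕ) : S.src (2 * j + 1) = S.B j ∧ S.kind (2 * j + 1) = S.kB j := by
  have h1 : ¬ (2 * j + 1) % 2 = 0 := by omega
  have h2 : (2 * j + 1) / 2 = j := by omega
  simp only [Slp.src, Slp.kind, h1, h2, if_false, and_self]

theorem pos_even (j : ℕ) :
    D.row S (wr (2 * j)) = D.rT (S.A j) (S.kA j) ∧ D.row S (wm (2 * j)) = D.rM (S.A j) (S.kA j) ∧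
    D.row S (wl (2 * j)) = D.rB (S.A j) (S.kA j) ∧ D.col S (wr (2 * j)) = D.X3 j ∧
    D.col S (wm (2 * j)) = D.X2 j ∧ D.col S (wl (2 * j)) = D.X1 j := by
  have h1 : (2 * j) % 2 = 0 := by omega
  have h2 : (2 * j) / 2 = j := by omega
  obtain ⟨h3, h4⟩ := src_even S j
  simp only [Sk.row, Sk.col, h1, h2, h3, h4, if_true, and_self]

theorem pos_odd (j : ℕ) :
    D.row S (wr (2 * j + 1)) = D.rT (S.B j) (S.kB j) ∧
    D.row S (wm (2 * j + 1)) = D.rM (S.B j) (S.kB j) ∧
    D.row S (wl (2 * j + 1)) = D.rB (S.B j) (S.kB j) ∧ D.col S (wr (2 * j + 1)) = D.X5 j ∧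
    D.col S (wm (2 * j + 1)) = D.X4 j ∧ D.col S (wl (2 * j + 1)) = D.X3 j := by
  have h1 : ¬ (2 * j + 1) % 2 = 0 := by omega
  have h2 : (2 * j + 1) / 2 = j := by omega
  obtain ⟨h3, h4⟩ := src_odd S j
  simp only [Sk.row, Sk.col, h1, h2, h3, h4, if_false, and_self]

theorem X5_eq (j : ℕ) (hj : 1 ≤ j) : D.X5 j = D.right j := by
  obtain ⟨i, rfl⟩ : ∃ i, j = i + 1 := ⟨j - 1, by omega⟩
  simp only [Sk.X5, Sk.X4, Sk.X3, Sk.X2, Sk.X1, Sk.right, Nat.add_sub_cancel]

theorem Y1_eq (j : ℕ) (hj : 1 ≤ j) : D.Y1 j = D.top j := by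
  obtain ⟨i, rfl⟩ : ∃ i, j = i + 1 := ⟨j - 1, by omega⟩
  simp only [Sk.Y1, Sk.Y2, Sk.Y3, Sk.Y4, Sk.top, Nat.add_sub_cancel]

theorem pk_pos (j : ℕ) (hj : 1 ≤ j) : S.pk j ≠ H ∧ S.pk j ≠ V ∧ (j ≤ S.N →
    D.col S (S.pk j) = D.X5 j + 1) := by
  unfold Slp.pk
  split_ifs with h
  · refine ⟨by simp, by simp, fun _ => ?_⟩
    rw [(pos_even S D (j + 1)).2.2.2.2.2, X5_eq D j hj]
    simp [Sk.X1]
  · refine ⟨by simp, by simp, fun h2 => ?_⟩
    have : j = S.N := by omega
    subst this
    rw [X5_eq D _ hj]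
    simp [Sk.col]

end

section

variable {S : Slp} {D : Sk} (hD : Sk.Ok S D)

include hD

theorem pa_pos (j : ℕ) (hj : 1 ≤ j) (hN : j ≤ S.N) : S.pa j ≠ H ∧ S.pa j ≠ V ∧
    D.X5 j < D.col S (S.pa j) ∧ D.row S (S.pa j) = 1 / 2 := by
  unfold Slp.pa
  split_ifs with h2
  · refine ⟨by simp, by simp, ?_, by simp [Sk.row]⟩
    have a1 := hD.uK_pos (j + 1) (by omega) (by omega)
    rw [X5_eq D j hj]
    simp only [Sk.col, Sk.X3, Sk.X2, Sk.X1, Nat.add_sub_cancel]
    linarith
  · have : j = S.N := by omega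
    subst this
    refine ⟨by simp, by simp, ?_, by simp [Sk.row]⟩
    rw [X5_eq D _ hj]
    simp only [Sk.col]
    linarith

/-- faces at the vertices of a block -/
theorem blk_pos (h : S.WF) (j : ℕ) (hj : 1 ≤ j) (hN : j ≤ S.N) : ∀ m ∈ S.blk2 j,
    0 < det3 (hom oF (D.col S) (D.row S) (S.L2 m)) (hom oF (D.col S) (D.row S) m)
        (hom oF (D.col S) (D.row S) (S.R2 m)) := by
  obtain ⟨e1, e2, e3, e4, e5, e6⟩ := pos_even S D j
  obtain ⟨o1, o2, o3, o4, o5, o6⟩ := pos_odd S D j
  obtain ⟨c1, c2, c3⟩ := mm_x2 hD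
  obtain ⟨pA1, pA2, pA3, pA4, pA5⟩ := port hD (S.kA j) (h.A_lt j hj hN) hN
  obtain ⟨pB1, pB2, pB3, pB4, pB5⟩ := port hD (S.kB j) (h.B_lt j hj hN) hN
  have rA := hD.ratA j hj hN
  have rB := hD.ratB j hj hN
  have k1 := hD.h1_pos j hj hN
  have k2 := hD.h2_pos j hj hN
  have k3 := hD.h3_pos j hj hN
  have uK := hD.uK_pos j hj hN
  have uL := hD.uL_pos j hj hN
  have tg := top_ge hD (j := j - 1) (by omega)
  have rg := right_ge hD (j := j - 1) (by omega)
  obtain ⟨q1, q2', q3'⟩ := pk_pos S D j hj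
  have q3' := q3' hN
  obtain ⟨z1, z2, z3, z4⟩ := pa_pos hD j hj hN
  have x1 : D.X1 j = D.right (j - 1) + 1 := rfl
  have x2 : D.X2 j = D.X1 j + 1 := rfl
  have x3 : D.X3 j = D.X2 j + D.uK j := rfl
  have x4 : D.X4 j = D.X3 j + 1 := rfl
  have x5 : D.X5 j = D.X4 j + D.uL j := rfl
  have y4 : D.Y4 j = D.top (j - 1) + 1 := rfl
  have y3 : D.Y3 j = D.Y4 j + D.h3 j := rfl
  have y2 : D.Y2 j = D.Y3 j + D.h2 j := rfl
  have y1 : D.Y1 j = D.Y2 j + D.h1 j := rfl
  have X5p := X5_eq D (j - 1)
  generalize D.rT (S.A j) (S.kA j) = TA at *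
  generalize D.rM (S.A j) (S.kA j) = MA at *
  generalize D.rB (S.A j) (S.kA j) = BA at *
  generalize D.rT (S.B j) (S.kB j) = TB at *
  generalize D.rM (S.B j) (S.kB j) = MB at *
  generalize D.rB (S.B j) (S.kB j) = BB at *
  generalize D.rat (S.A j) (S.kA j) = RA at *
  generalize D.rat (S.B j) (S.kB j) = RB at *
  have w1 : ¬ (2 * j + 1) % 2 = 0 := by omega
  have w2 : (2 * j + 1) / 2 = j := by omega
  have w3 : (2 * j) % 2 = 0 := by omega
  have w4 : (2 * j) / 2 = j := by omega
  have ratK : 0 < D.uK j * (MA - BA) - (TA - MA) := by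
    have := mul_pos (sub_pos.2 rA) (sub_pos.2 pA2)
    linarith
  have ratL : 0 < D.uL j * (MB - BB) - (TB - MB) := by
    have := mul_pos (sub_pos.2 rB) (sub_pos.2 pB2)
    linarith
  -- the common vertices
  have ha5 : 0 < det3 (hom oF (D.col S) (D.row S) (S.L2 (a5 j))) (hom oF (D.col S) (D.row S) (a5 j))
        (hom oF (D.col S) (D.row S) (S.R2 (a5 j))) := by
    simp only [Slp.L2, Slp.R2]
    rw [det_eq S D _ _ _ ⟨z1, z2⟩ (by simp) (by simp), z4]
    generalize D.col S (S.pa j) = cp at *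
    simp only [Sk.row, Sk.col]
    linarith
  have hwr1 : 0 < det3 (hom oF (D.col S) (D.row S) (S.L2 (wr (2 * j + 1))))
      (hom oF (D.col S) (D.row S) (wr (2 * j + 1)))
        (hom oF (D.col S) (D.row S) (S.R2 (wr (2 * j + 1)))) := by
    simp only [Slp.L2, Slp.R2, w1, w2, if_false]
    rw [det_eq S D _ _ _ (by simp) (by simp) (by simp), o1, o3, o4, o6]
    simp only [Sk.row, Sk.col]
    have := mul_pos (show 0 < TB - 1 / 2 by linarith) (show 0 < D.X5 j - D.X3 j by linarith)
    linarith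
  have hwm1 : 0 < det3 (hom oF (D.col S) (D.row S) (S.L2 (wm (2 * j + 1))))
      (hom oF (D.col S) (D.row S) (wm (2 * j + 1)))
        (hom oF (D.col S) (D.row S) (S.R2 (wm (2 * j + 1)))) := by
    simp only [Slp.L2, Slp.R2]
    rw [det_eq S D _ _ _ (by simp) (by simp) (by simp), o1, o2, o3, o4, o5, o6]
    have : (D.X4 j - D.X5 j) * (BB - TB) - (MB - TB) * (D.X3 j - D.X5 j) =
        D.uL j * (MB - BB) - (TB - MB) := by
      rw [x5, x4]; ring
    rw [this]
    exact ratL
  have hwl1 : 0 < det3 (hom oF (D.col S) (D.row S) (S.L2 (wl (2 * j + 1))))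
      (hom oF (D.col S) (D.row S) (wl (2 * j + 1)))
        (hom oF (D.col S) (D.row S) (S.R2 (wl (2 * j + 1)))) := by
    simp only [Slp.L2, Slp.R2, w1, w2, if_false]
    rw [det_eq S D _ _ _ (by simp) (by simp) (by simp), o3, o6]
    simp only [Sk.row, Sk.col]
    have := mul_pos (show 0 < BB - 1 / 2 by linarith) (show 0 < D.X5 j - D.X3 j by linarith)
    linarith
  have ha3 : 0 < det3 (hom oF (D.col S) (D.row S) (S.L2 (a3 j))) (hom oF (D.col S) (D.row S) (a3 j))
        (hom oF (D.col S) (D.row S) (S.R2 (a3 j))) := by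
    simp only [Slp.L2, Slp.R2]
    rw [det_eq S D _ _ _ (by simp) (by simp) (by simp)]
    simp only [Sk.row, Sk.col]
    linarith
  have hwr0 : 0 < det3 (hom oF (D.col S) (D.row S) (S.L2 (wr (2 * j))))
      (hom oF (D.col S) (D.row S) (wr (2 * j)))
        (hom oF (D.col S) (D.row S) (S.R2 (wr (2 * j)))) := by
    simp only [Slp.L2, Slp.R2, w3, w4, if_true]
    rw [det_eq S D _ _ _ (by simp) (by simp) (by simp), e1, e3, e4, e6]
    simp only [Sk.row, Sk.col]
    have := mul_pos (show 0 < TA - 1 / 2 by linarith) (show 0 < D.X3 j - D.X1 j by linarith)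
    linarith
  have hwm0 : 0 < det3 (hom oF (D.col S) (D.row S) (S.L2 (wm (2 * j))))
      (hom oF (D.col S) (D.row S) (wm (2 * j)))
        (hom oF (D.col S) (D.row S) (S.R2 (wm (2 * j)))) := by
    simp only [Slp.L2, Slp.R2]
    rw [det_eq S D _ _ _ (by simp) (by simp) (by simp), e1, e2, e3, e4, e5, e6]
    have : (D.X2 j - D.X3 j) * (BA - TA) - (MA - TA) * (D.X1 j - D.X3 j) =
        D.uK j * (MA - BA) - (TA - MA) := by
      rw [x3, x2]; ring
    rw [this]
    exact ratK
  have hwl0 : 0 < det3 (hom oF (D.col S) (D.row S) (S.L2 (wl (2 * j))))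
      (hom oF (D.col S) (D.row S) (wl (2 * j)))
        (hom oF (D.col S) (D.row S) (S.R2 (wl (2 * j)))) := by
    simp only [Slp.L2, Slp.R2, w3, w4, if_true]
    by_cases hj1 : j = 1
    · simp only [if_pos hj1]
      rw [det_eq S D _ _ _ (by simp) (by simp) (by simp), e3, e6]
      simp only [Sk.row, Sk.col]
      have := mul_pos (show 0 < BA - 1 / 2 by linarith) (show 0 < D.X3 j by linarith)
      linarith
    · simp only [if_neg hj1]
      rw [det_eq S D _ _ _ (by simp) (by simp) (by simp), e3, e6]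
      simp only [Sk.row, Sk.col]
      rw [X5p (by omega)]
      have := mul_pos (show 0 < BA - 1 / 2 by linarith)
        (show 0 < D.X3 j - D.right (j - 1) by linarith)
      linarith
  rintro m hm
  cases hty : S.ty j
  · -- type g
    simp only [Slp.blk2, Slp.c5, Slp.c4, Slp.c3, Slp.c2, hty, List.cons_append, List.nil_append,
      List.mem_cons, List.not_mem_nil, or_false] at hm
    rcases hm with rfl | rfl | rfl | rfl | rfl | rfl | rfl | rfl | rfl | rfl | rfl | rfl | rfl | rfl
    · simp only [Slp.L2, Slp.R2, hty]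
      rw [det_eq S D _ _ _ ⟨q1, q2'⟩ (by simp) (by simp), q3']
      generalize D.row S (S.pk j) = ρ
      simp only [Sk.row, Sk.col, hty, reduceCtorEq, if_false]
      linarith
    · simp only [Slp.L2, Slp.R2]
      rw [det_eq S D _ _ _ ⟨q1, q2'⟩ (by simp) (by simp), q3']
      generalize D.row S (S.pk j) = ρ
      simp only [Sk.row, Sk.col]
      linarith
    · exact ha5
    · exact hwr1
    · exact hwm1
    · simp only [Slp.L2, Slp.R2, hty]
      rw [det_eq S D _ _ _ (by simp) (by simp) (by simp), o2, o3, o5, o6]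
      simp only [Sk.row, Sk.col, hty]
      rw [x4]
      linarith
    · simp only [Slp.L2, Slp.R2, Slp.c4, hty, reduceCtorEq, if_false]
      rw [det_eq S D _ _ _ (by simp) (by simp) (by simp), o3, o6]
      simp only [Sk.row, Sk.col, hty]
      rw [x4]
      linarith
    · exact hwl1
    · exact ha3
    · exact hwr0
    · exact hwm0
    · simp only [Slp.L2, Slp.R2, hty]
      rw [det_eq S D _ _ _ (by simp) (by simp) (by simp), e2, e3, e5, e6]
      simp only [Sk.row, Sk.col, hty]
      rw [x2]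
      linarith
    · simp only [Slp.L2, Slp.R2, Slp.c2, hty]
      rw [det_eq S D _ _ _ (by simp) (by simp) (by simp), e3, e6]
      simp only [Sk.row, Sk.col, hty]
      rw [x2]
      linarith
    · exact hwl0
  · -- type s
    simp only [Slp.blk2, Slp.c5, Slp.c4, Slp.c3, Slp.c2, hty, List.cons_append, List.nil_append,
      List.mem_cons, List.not_mem_nil, or_false] at hm
    rcases hm with rfl | rfl | rfl | rfl | rfl | rfl | rfl | rfl | rfl | rfl | rfl | rfl | rfl | rfl
    · simp only [Slp.L2, Slp.R2, hty]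
      rw [det_eq S D _ _ _ ⟨q1, q2'⟩ (by simp) (by simp), q3']
      generalize D.row S (S.pk j) = ρ
      simp only [Sk.row, Sk.col, hty]
      linarith
    · simp only [Slp.L2, Slp.R2]
      rw [det_eq S D _ _ _ ⟨q1, q2'⟩ (by simp) (by simp), q3']
      generalize D.row S (S.pk j) = ρ
      simp only [Sk.row, Sk.col]
      linarith
    · exact ha5
    · exact hwr1
    · exact hwm1
    · simp only [Slp.L2, Slp.R2, hty]
      rw [det_eq S D _ _ _ (by simp) (by simp) (by simp), o2, o3, o5, o6]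
      simp only [Sk.row, Sk.col, hty, reduceCtorEq, if_false]
      rw [x4]
      linarith
    · simp only [Slp.L2, Slp.R2, Slp.c4, hty, reduceCtorEq, if_false]
      rw [det_eq S D _ _ _ (by simp) (by simp) (by simp), o3, o6]
      simp only [Sk.row, Sk.col, hty, reduceCtorEq, if_false]
      rw [x4]
      linarith
    · exact hwl1
    · exact ha3
    · exact hwr0
    · exact hwm0
    · simp only [Slp.L2, Slp.R2, hty]
      rw [det_eq S D _ _ _ (by simp) (by simp) (by simp), e2, e3, e5, e6]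
      simp only [Sk.row, Sk.col, hty]
      rw [x2]
      linarith
    · simp only [Slp.L2, Slp.R2, Slp.c2, hty]
      rw [det_eq S D _ _ _ (by simp) (by simp) (by simp), e3, e6]
      simp only [Sk.row, Sk.col, hty]
      rw [x2]
      linarith
    · exact hwl0
  · -- type f
    simp only [Slp.blk2, Slp.c5, Slp.c4, Slp.c3, Slp.c2, hty, List.cons_append, List.nil_append,
      List.mem_cons, List.not_mem_nil, or_false] at hm
    rcases hm with rfl | rfl | rfl | rfl | rfl | rfl | rfl | rfl | rfl | rfl | rfl | rfl | rfl | rfl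
    · simp only [Slp.L2, Slp.R2]
      rw [det_eq S D _ _ _ ⟨q1, q2'⟩ (by simp) (by simp), q3']
      generalize D.row S (S.pk j) = ρ
      simp only [Sk.row, Sk.col]
      linarith
    · exact ha5
    · exact hwr1
    · exact hwm1
    · simp only [Slp.L2, Slp.R2, hty]
      rw [det_eq S D _ _ _ (by simp) (by simp) (by simp), o2, o3, o5, o6]
      simp only [Sk.row, Sk.col, hty]
      rw [x4]
      linarith
    · simp only [Slp.L2, Slp.R2, Slp.c4, hty, if_true]
      rw [det_eq S D _ _ _ (by simp) (by simp) (by simp)]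
      simp only [Sk.row, Sk.col, hty, if_true]
      rw [x4]
      linarith
    · simp only [Slp.L2, Slp.R2, hty]
      rw [det_eq S D _ _ _ (by simp) (by simp) (by simp), o3, o6]
      simp only [Sk.row, Sk.col, hty, if_true]
      rw [x4]
      linarith
    · exact hwl1
    · exact ha3
    · exact hwr0
    · exact hwm0
    · simp only [Slp.L2, Slp.R2, hty]
      rw [det_eq S D _ _ _ (by simp) (by simp) (by simp), e2, e3, e5, e6]
      simp only [Sk.row, Sk.col, hty]
      rw [x2]
      linarith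
    · simp only [Slp.L2, Slp.R2, Slp.c2, hty]
      rw [det_eq S D _ _ _ (by simp) (by simp) (by simp), e3, e6]
      simp only [Sk.row, Sk.col, hty]
      rw [x2]
      linarith
    · exact hwl0

theorem blks_pos (h : S.WF) (N' : ℕ) (hN' : N' ≤ S.N) : ∀ m ∈ S.blks2 N',
    0 < det3 (hom oF (D.col S) (D.row S) (S.L2 m)) (hom oF (D.col S) (D.row S) m)
        (hom oF (D.col S) (D.row S) (S.R2 m)) := by
  induction N' with
  | zero => intro m hm; simp [Slp.blks2] at hm
  | succ k ih =>
    intro m hm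
    rw [Slp.blks2, List.mem_append] at hm
    rcases hm with hm | hm
    · exact blk_pos hD h (k + 1) (by omega) hN' m hm
    · exact ih (by omega) m hm

end

/-- module R4: inner faces of the second triangulation -/
theorem R4 (S : Slp) (h : S.WF) (D : Sk) (hD : Sk.Ok S D) :
    (∀ m ∈ S.path2, m ≠ A1 →
      0 < det3 (hom oF (D.col S) (D.row S) (S.L2 m)) (hom oF (D.col S) (D.row S) m)
        (hom oF (D.col S) (D.row S) (S.R2 m))) ∧
    ∀ f ∈ Slp.five, 0 < det3 (hom oF (D.col S) (D.row S) f.1)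
      (hom oF (D.col S) (D.row S) f.2.1) (hom oF (D.col S) (D.row S) f.2.2) := by
  obtain ⟨c1, c2, c3⟩ := mm_x2 hD
  have hN1 := h.one_le
  have k1 := hD.h1_pos S.N hN1 le_rfl
  have k2 := hD.h2_pos S.N hN1 le_rfl
  have k3 := hD.h3_pos S.N hN1 le_rfl
  have tg := top_ge hD (j := S.N - 1) (by omega)
  have rg := right_ge hD (j := S.N) le_rfl
  have y4 : D.Y4 S.N = D.top (S.N - 1) + 1 := rfl
  have y3 : D.Y3 S.N = D.Y4 S.N + D.h3 S.N := rfl
  have y2 : D.Y2 S.N = D.Y3 S.N + D.h2 S.N := rfl
  have x5 := X5_eq D S.N hN1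
  have fin := hD.fin
  constructor
  · intro m hm hA
    have hA1 : S.A 1 = 0 := by
      have := h.A_lt 1 le_rfl hN1
      omega
    obtain ⟨e1, e2, e3, e4, e5, e6⟩ := pos_even S D 1
    rw [hA1] at e3
    simp only [Sk.rB, if_true, Nat.mul_one] at e3
    simp only [Nat.mul_one] at e6
    have x1 : D.X1 1 = D.x2 + 1 := rfl
    rw [x1] at e6
    simp only [Slp.path2, List.mem_append, List.mem_cons, List.not_mem_nil, or_false] at hm
    rcases hm with ((rfl | rfl | rfl | rfl | rfl | rfl) | hm) | (rfl | rfl | rfl | rfl | rfl)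
    · -- anc
      simp only [Slp.L2, Slp.R2]
      simp [hom, oF, det3, Sk.row]
    · -- B2
      simp only [Slp.L2, Slp.R2]
      rw [det_eq S D _ _ _ (by simp) (by simp) (by simp)]
      simp only [Sk.row, Sk.col]
      linarith
    · -- A2
      simp only [Slp.L2, Slp.R2]
      rw [det_eq S D _ _ _ (by simp) (by simp) (by simp)]
      simp only [Sk.row, Sk.col]
      linarith
    · -- M
      simp only [Slp.L2, Slp.R2]
      rw [det_eq S D _ _ _ (by simp) (by simp) (by simp)]
      simp only [Sk.row, Sk.col]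
      linarith
    · exact absurd rfl hA
    · -- B1
      simp only [Slp.L2, Slp.R2]
      rw [det_eq S D _ _ _ (by simp) (by simp) (by simp)]
      simp only [Sk.row, Sk.col]
      rw [x5]
      linarith
    · exact blks_pos hD h S.N le_rfl m hm
    · -- p0
      simp only [Slp.L2, Slp.R2]
      rw [det_eq S D _ _ _ (by simp) (by simp) (by simp), e3, e6]
      simp only [Sk.row, Sk.col]
      linarith
    · -- q0p
      simp only [Slp.L2, Slp.R2]
      rw [det_eq S D _ _ _ (by simp) (by simp) (by simp), e3, e6]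
      simp only [Sk.row, Sk.col]
      have := mul_pos (show 0 < D.mm - 1 by linarith) (show 0 < D.x2 + 1 by linarith)
      linarith
    · -- s0
      simp only [Slp.L2, Slp.R2]
      rw [det_eq S D _ _ _ (by simp) (by simp) (by simp)]
      simp only [Sk.row, Sk.col]
      have := mul_pos (show 0 < D.mm - 1 by linarith) (show 0 < D.x2 - 1 by linarith)
      linarith
    · -- r0
      simp only [Slp.L2, Slp.R2]
      rw [det_eq S D _ _ _ (by simp) (by simp) (by simp)]
      simp only [Sk.row, Sk.col]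
      linarith
    · -- q0
      simp only [Slp.L2, Slp.R2]
      rw [det_eq S D _ _ _ (by simp) (by simp) (by simp)]
      simp only [Sk.row, Sk.col]
      linarith
  · intro f hf
    have j1 := hD.j1
    have j2 := hD.j2
    have j9 := hD.j9
    have j10 := hD.j10
    have j11 := hD.j11
    have j12 := hD.j12
    simp only [Slp.five, List.mem_cons, List.not_mem_nil, or_false] at hf
    rcases hf with rfl | rfl | rfl | rfl | rfl
    · simp only []
      rw [det_eq S D _ _ _ (by simp) (by simp) (by simp)]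
      simp only [Sk.row, Sk.col]
      rw [y2, y3]
      linarith
    · simp only []
      rw [det_eq S D _ _ _ (by simp) (by simp) (by simp)]
      simp only [Sk.row, Sk.col]
      rw [y3]
      linarith
    · simp only []
      rw [det_eq S D _ _ _ (by simp) (by simp) (by simp)]
      simp only [Sk.row, Sk.col]
      rw [y2, y3]
      linarith
    · simp only []
      rw [det_eq S D _ _ _ (by simp) (by simp) (by simp)]
      simp only [Sk.row, Sk.col]
      rw [y2, y3]
      have := mul_pos (show 0 < D.h2 S.N + D.h3 S.N by linarith) (show 0 < D.nu by linarith)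
      linarith
    · simp only []
      rw [det_eq S D _ _ _ (by simp) (by simp) (by simp)]
      simp only [Sk.row, Sk.col]
      rw [y3]
      linarith

end Pool.Agent.helper70.SGE
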